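import Pool.Agent.Y88.FC.Final

set_option autoImplicit false

/-!
# Rings F-isomorphic to the coordinate ring of the variety of one-parameter subgroups of the
Frobenius kernels of a Borel subgroup of `SL_n` are not Cohen-Macaulay, for `n ≥ 4`, `r ≥ 4` and for
`n ≥ 6`, `r ≥ 3`

The variety of commuting `r`-tuples of strictly upper triangular `n × n` matrices has an irreducible
component of dimension `n (n - 1) / 2 + (r - 1) (n - 1)`, the closure of the set of the tuples whose
first matrix is regular, and it contains a linear subspace of the larger dimension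
`r ⌊n / 2⌋ ⌈n / 2⌉`.
-/

namespace Pool.Agent.Results.MP_5f3851_al.BorelSlN

open Pool.Agent.H989R3.CMF Pool.Agent.Y88.FC

/-- Let `k` be a field, let `n ≥ 4` and `r ≥ 4`, or `n ≥ 6` and `r ≥ 3`, and let `H` be a Noetherian
commutative ring with a ring homomorphism `ψ` to the coordinate ring of the variety of commuting
`r`-tuples of strictly upper triangular `n × n` matrices over `k`, with nilpotent kernel and such
that every element has a power in the image. Then `H` is not Cohen-Macaulay. -/
theorem result (k : Type) [Field k] (n r : ℕ) (hnr : (4 ≤ n ∧ 4 ≤ r) ∨ (6 ≤ n ∧ 3 ≤ r))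
    (H : Type) [CommRing H] [IsNoetherianRing H] (ψ : H →+* CR k n r)
    (hker : ∀ x, ψ x = 0 → IsNilpotent x) (himg : ∀ y, ∃ m, 0 < m ∧ ∃ x, ψ x = y ^ m) :
    ¬ IsCM H := by
  refine main n r ?_ ψ (fun x hx => hker x hx) (fun y => by
    obtain ⟨m, hm, x, hx⟩ := himg y
    exact ⟨m, hm, x, hx⟩)
  obtain ⟨s, hs⟩ : ∃ s, n / 2 = s + 1 := ⟨n / 2 - 1, by omega⟩
  obtain ⟨q, hq⟩ : ∃ q, r = q + 1 := ⟨r - 1, by omega⟩
  rw [hs, hq, Nat.add_sub_cancel, Nat.add_sub_cancel]
  rcases hnr with ⟨h1, h2⟩ | ⟨h1, h2⟩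
  · have h3 : 1 ≤ s := by omega
    have h4 : 3 ≤ q := by omega
    nlinarith
  · have h3 : 2 ≤ s := by omega
    have h4 : 2 ≤ q := by omega
    nlinarith

end Pool.Agent.Results.MP_5f3851_al.BorelSlN
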